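import Pool.Agent.Q101.FsLp
import Pool.Agent.Q101.FsGreedy
import Pool.Agent.Q101.FsGk
import Pool.Agent.Q101.FsTail
import Pool.Agent.Q101.FsTight
import Pool.Agent.Q101.FsSmall
import Pool.Agent.Q101.FsSupply
import Pool.Agent.Q101.FsCore
import Pool.Agent.Q101.FsDirs
import Pool.Agent.Q101.FsSum
import Pool.Agent.Q101.FsUniv

set_option autoImplicit false

/-!
# `F(ℓ_p)` is not isomorphic to the `ℓ₁`-sum of the `F(ℓ_p^n)`, `1 < p < ∞`

`LipFree M` (from `Pool.Agent.Q101.LfFree`) is the Lipschitz-free space of the metric space `M`: the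
completion of the space of finitely supported `x : M → ℝ` with `∑ x m = 0`, normed by
`sup_f |∑ x m * f m|` over the `1`-Lipschitz functions `f : M → ℝ`; the universal property which
characterizes it is the theorem `Q101Fs.univ`.

The theorem: let `1 < p < ∞`.

* For every sequence of finite dimensional normed spaces `E n` the space `F(ℓ_p)` is not isomorphic to
  a complemented subspace of the `ℓ₁`-sum of the spaces `F(E n)`: there are no bounded linear maps `T`,
  `S` between the two spaces with `S ∘ T = id`.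
* `F(ℓ_p)` is not isomorphic to the `ℓ₁`-sum of the spaces `F(ℓ_p^n)`.
-/

open scoped ENNReal

namespace Pool.Agent.Results.MP_ce7f50_an.NotSumAboveOne

open Q101Lf

/-- `X` is isomorphic to a complemented subspace of `Y`. -/
def IsComplementedIn (X Y : Type) [NormedAddCommGroup X] [NormedSpace ℝ X]
    [NormedAddCommGroup Y] [NormedSpace ℝ Y] : Prop :=
  ∃ (T : X →L[ℝ] Y) (S : Y →L[ℝ] X), ∀ x, S (T x) = x

/-- `X` and `Y` are linearly isomorphic. -/
def IsIsomorphicTo (X Y : Type) [NormedAddCommGroup X] [NormedSpace ℝ X]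
    [NormedAddCommGroup Y] [NormedSpace ℝ Y] : Prop :=
  Nonempty (X ≃L[ℝ] Y)

/-- `F(ℓ_p)` is isomorphic to a complemented subspace of the `ℓ₁`-sum of the spaces `F(E n)`. -/
def EmbedsComplemented (p : ℝ≥0∞) [Fact (1 ≤ p)] (E : ℕ → Type) [∀ n, NormedAddCommGroup (E n)] :
    Prop :=
  IsComplementedIn (LipFree (lp (fun _ : ℕ => ℝ) p)) (lp (fun n => LipFree (E n)) 1)

/-- `F(ℓ_p)` is isomorphic to the `ℓ₁`-sum of the spaces `F(ℓ_p^n)`. -/
def IsomorphicToSum (p : ℝ≥0∞) [Fact (1 ≤ p)] : Prop :=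
  IsIsomorphicTo (LipFree (lp (fun _ : ℕ => ℝ) p))
    (lp (fun n : ℕ => LipFree (PiLp p fun _ : Fin n => ℝ)) 1)

theorem result (p : ℝ≥0∞) [Fact (1 ≤ p)] (h1p : 1 < p) (hp : p ≠ ∞) :
    (∀ (E : ℕ → Type) [∀ n, NormedAddCommGroup (E n)] [∀ n, NormedSpace ℝ (E n)]
      [∀ n, FiniteDimensional ℝ (E n)], ¬ EmbedsComplemented p E) ∧
    ¬ IsomorphicToSum p := by
  have key : ∀ (E : ℕ → Type) [∀ n, NormedAddCommGroup (E n)] [∀ n, NormedSpace ℝ (E n)]
      [∀ n, FiniteDimensional ℝ (E n)], ¬ EmbedsComplemented p E := by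
    rintro E _ _ _ ⟨T, S, hST⟩
    exact Q101Fs.lp_main Q101Fs.gk (Q101Fs.tail Q101Fs.greedy) (Q101Fs.tight Q101Fs.greedy)
      Q101Fs.small Q101Fs.supply Q101Fs.core Q101Fs.dirs Q101Fs.sum h1p hp E T S hST
  refine ⟨key, ?_⟩
  rintro ⟨T⟩
  exact key (fun n : ℕ => PiLp p fun _ : Fin n => ℝ)
    ⟨T.toContinuousLinearMap, T.symm.toContinuousLinearMap, fun x => T.symm_apply_apply x⟩

end Pool.Agent.Results.MP_ce7f50_an.NotSumAboveOne
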